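import Pool.Agent.helper72.JS.E
import Pool.Agent.helper59.JS.A1
import Pool.Agent.helper23.JS.C
import Pool.Agent.helper23.JS.D2
import Pool.Agent.helper61.JS.Lo
import Pool.Agent.helper63.JS.F1

/-!
# Module F2: strong phase solutions give schedules
-/

set_option autoImplicit false
set_option linter.unusedSectionVars false

namespace Pool.Agent.helper66.JS

open Finset

namespace ModF2

open ModE

open Classical in
/-- indicator of a proposition -/
noncomputable def ind (p : Prop) : ℕ := if p then 1 else 0

theorem ind_eq (p : Prop) [Decidable p] : ind p = if p then 1 else 0 := by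
  unfold ind
  by_cases h : p <;> simp [h]

theorem ind_pos {p : Prop} (h : p) : ind p = 1 := by simp [ind, h]

theorem ind_neg {p : Prop} (h : ¬ p) : ind p = 0 := by simp [ind, h]

theorem ind_congr {p q : Prop} (h : p ↔ q) : ind p = ind q := by rw [propext h]

/-- sum over all occurrences, with the word indices starting at `off` -/
def osum (F : ℕ → ℕ → Let → ℕ) : ℕ → List (List Let) → ℕ
  | _, [] => 0
  | off, w :: ws => (∑ q : Fin w.length, F off q (w.get q)) + osum F (off + 1) ws

theorem osum_eq (F : ℕ → ℕ → Let → ℕ) (ws : List (List Let)) (off : ℕ) :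
    ∑ x : Occ ws, F (off + x.1.1) x.2.1 (kdOf ws x) = osum F off ws := by
  rw [Fintype.sum_sigma]
  induction ws generalizing off with
  | nil => simp [osum]
  | cons w ws ih =>
    have h := Fin.sum_univ_succ (n := ws.length) (fun j : Fin (ws.length + 1) =>
      ∑ k : Fin ((w :: ws).get j).length, F (off + j.1) k.1 (kdOf (w :: ws) ⟨j, k⟩))
    refine h.trans ?_
    rw [osum, ← ih (off + 1)]
    congr 1
    refine sum_congr rfl fun j _ => ?_
    refine sum_congr rfl fun k _ => ?_
    have : off + (j.succ : Fin (ws.length + 1)).1 = off + 1 + j.1 := by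
      simp only [Fin.val_succ]; omega
    rw [this]
    rfl

theorem osum_append (F : ℕ → ℕ → Let → ℕ) (w1 w2 : List (List Let)) (off : ℕ) :
    osum F off (w1 ++ w2) = osum F off w1 + osum F (off + w1.length) w2 := by
  induction w1 generalizing off with
  | nil => simp [osum]
  | cons w w1 ih =>
    rw [List.cons_append, osum, ih, osum, List.length_cons,
      show off + 1 + w1.length = off + (w1.length + 1) by omega, add_assoc]

theorem osum_replicate (F : ℕ → ℕ → Let → ℕ) (m : ℕ) (c : Let) (off : ℕ) :
    osum F off (List.replicate m [c]) = ∑ i ∈ range m, F (off + i) 0 c := by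
  induction m generalizing off with
  | zero => simp [osum]
  | succ m ih =>
    rw [List.replicate_succ, osum, ih, Finset.sum_range_succ', add_comm]
    congr 1
    refine sum_congr rfl fun i _ => ?_
    rw [show off + 1 + i = off + (i + 1) by omega]

theorem osum_main (F : ℕ → ℕ → Let → ℕ) (G : WD × ℕ → ℕ → Let → ℕ) (S : List (WD × ℕ))
    (off : ℕ) (h : ∀ j (hj : j < S.length) q c, F (off + j) q c = G S[j] q c) :
    osum F off ((S.map Prod.fst).map WD.letters) =
      (S.map (fun p => ∑ q ∈ range (2 * p.1.K + 1), G p q (p.1.at q))).sum := by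
  induction S generalizing off with
  | nil => simp [osum]
  | cons p S ih =>
    rw [List.map_cons, List.map_cons, osum, List.map_cons, List.sum_cons]
    rw [ih (off + 1) (fun j hj q c => by
      have := h (j + 1) (by simpa using hj) q c
      rw [show off + 1 + j = off + (j + 1) by omega]
      simpa using this)]
    congr 1
    have h1 : ∀ q : Fin p.1.letters.length, F off q (p.1.letters.get q) =
        G p q (p.1.at q) := by
      intro q
      have := h 0 (by simp) q (p.1.letters.get q)
      simp only [add_zero, List.getElem_cons_zero] at this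
      rw [this]
      congr 1
      simp [WD.letters]
    rw [sum_congr rfl (fun q _ => h1 q),
      Fin.sum_univ_eq_sum_range (fun q => G p q (p.1.at q)) p.1.letters.length, letters_length]

theorem sum_ind_eq_countP {α : Type} (S : List α) (P : α → Prop) [DecidablePred P]
    (f : α → ℕ) (h : ∀ p ∈ S, f p = ind (P p)) :
    (S.map f).sum = S.countP (fun p => decide (P p)) := by
  induction S with
  | nil => simp
  | cons p S ih =>
    rw [List.map_cons, List.sum_cons, ih (fun q hq => h q (by simp [hq])), h p (by simp),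
      List.countP_cons, ind_eq]
    simp [add_comm]

variable (S : List (WD × ℕ)) (E : ℕ)

/-- phase of an occurrence -/
def phN (j q : ℕ) : ℕ :=
  if j < S.length then 2 * ((S.map Prod.snd).getD j 0) + q
  else if j < S.length + 3 * (E + 1) then 2 * ((j - S.length) / 3)
  else if j < S.length + 3 * (E + 1) + 3 * E then 2 * ((j - (S.length + 3 * (E + 1))) / 3) + 1
  else if j < S.length + 3 * (E + 1) + 3 * E + E then
    2 * (j - (S.length + 3 * (E + 1) + 3 * E))
  else 2 * (j - (S.length + 3 * (E + 1) + 3 * E + E)) + 1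

/-- fillers -/
def flN (j : ℕ) : Prop := S.length ≤ j ∧ j < S.length + 3 * (E + 1) + 3 * E

/-- number of words without the last two -/
def MM : ℕ := S.length + 3 * (E + 1) + 3 * E + E + E

theorem card_formula (P : ℕ → Prop → Let → Prop)
    [DecidablePred (fun x : Occ (words (S.map Prod.fst) E) =>
      P (phN S E x.1.1 x.2.1) (flN S E x.1.1) (kdOf _ x))] :
    ((univ.filter (fun x : Occ (words (S.map Prod.fst) E) => x.1.1 < MM S E)).filter
      (fun x => P (phN S E x.1.1 x.2.1) (flN S E x.1.1) (kdOf _ x))).card =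
    (S.map (fun p => ∑ q ∈ range (2 * p.1.K + 1), ind (P (2 * p.2 + q) False (p.1.at q)))).sum +
    (∑ i ∈ range (3 * (E + 1)), ind (P (2 * (i / 3)) True .n1)) +
    (∑ i ∈ range (3 * E), ind (P (2 * (i / 3) + 1) True .n2)) +
    (∑ i ∈ range E, ind (P (2 * i) False .s)) +
    (∑ i ∈ range E, ind (P (2 * i + 1) False .r)) := by
  rw [filter_filter, card_filter]
  set F : ℕ → ℕ → Let → ℕ := fun j q c =>
    ind (j < MM S E ∧ P (phN S E j q) (flN S E j) c) with hF
  have h0 : (∑ x : Occ (words (S.map Prod.fst) E),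
      if x.1.1 < MM S E ∧ P (phN S E x.1.1 x.2.1) (flN S E x.1.1) (kdOf _ x) then 1 else 0) =
      osum F 0 (words (S.map Prod.fst) E) := by
    rw [← osum_eq]
    refine sum_congr rfl fun x _ => ?_
    simp only [hF, zero_add]
    rw [ind_eq]
  rw [h0, words_eq, osum_append, rest, osum_append, osum_append, osum_append, osum_append,
    osum_replicate, osum_replicate, osum_replicate, osum_replicate,
    osum_main F (fun p q c => ind (P (2 * p.2 + q) False c))]
  · simp only [List.length_map, List.length_append, List.length_replicate, zero_add]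
    have e1 : ∑ i ∈ range (3 * (E + 1)), F (S.length + i) 0 .n1 =
        ∑ i ∈ range (3 * (E + 1)), ind (P (2 * (i / 3)) True .n1) := by
      refine sum_congr rfl fun i hi => ?_
      have hi' := mem_range.1 hi
      have a1 : S.length + i < MM S E := by unfold MM; omega
      have a2 : phN S E (S.length + i) 0 = 2 * (i / 3) := by
        unfold phN
        rw [if_neg (by omega), if_pos (by omega)]
        congr 2
        omega
      have a3 : flN S E (S.length + i) = True := by
        simp only [flN, eq_iff_iff, iff_true]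
        omega
      simp only [hF, a1, a2, a3, true_and]
    have e2 : ∑ i ∈ range (3 * E), F (S.length + 3 * (E + 1) + i) 0 .n2 =
        ∑ i ∈ range (3 * E), ind (P (2 * (i / 3) + 1) True .n2) := by
      refine sum_congr rfl fun i hi => ?_
      have hi' := mem_range.1 hi
      have a1 : S.length + 3 * (E + 1) + i < MM S E := by unfold MM; omega
      have a2 : phN S E (S.length + 3 * (E + 1) + i) 0 = 2 * (i / 3) + 1 := by
        unfold phN
        rw [if_neg (by omega), if_neg (by omega), if_pos (by omega)]
        congr 3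
        omega
      have a3 : flN S E (S.length + 3 * (E + 1) + i) = True := by
        simp only [flN, eq_iff_iff, iff_true]
        omega
      simp only [hF, a1, a2, a3, true_and]
    have e3 : ∑ i ∈ range E, F (S.length + (3 * (E + 1) + 3 * E) + i) 0 .s =
        ∑ i ∈ range E, ind (P (2 * i) False .s) := by
      refine sum_congr rfl fun i hi => ?_
      have hi' := mem_range.1 hi
      have a1 : S.length + (3 * (E + 1) + 3 * E) + i < MM S E := by unfold MM; omega
      have a2 : phN S E (S.length + (3 * (E + 1) + 3 * E) + i) 0 = 2 * i := by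
        unfold phN
        rw [if_neg (by omega), if_neg (by omega), if_neg (by omega), if_pos (by omega)]
        omega
      have a3 : flN S E (S.length + (3 * (E + 1) + 3 * E) + i) = False := by
        simp only [flN, eq_iff_iff, iff_false]
        omega
      simp only [hF, a1, a2, a3, true_and]
    have e4 : ∑ i ∈ range E, F (S.length + (3 * (E + 1) + 3 * E + E) + i) 0 .r =
        ∑ i ∈ range E, ind (P (2 * i + 1) False .r) := by
      refine sum_congr rfl fun i hi => ?_
      have hi' := mem_range.1 hi
      have a1 : S.length + (3 * (E + 1) + 3 * E + E) + i < MM S E := by unfold MM; omega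
      have a2 : phN S E (S.length + (3 * (E + 1) + 3 * E + E) + i) 0 = 2 * i + 1 := by
        unfold phN
        rw [if_neg (by omega), if_neg (by omega), if_neg (by omega), if_neg (by omega)]
        omega
      have a3 : flN S E (S.length + (3 * (E + 1) + 3 * E + E) + i) = False := by
        simp only [flN, eq_iff_iff, iff_false]
        omega
      simp only [hF, a1, a2, a3, true_and]
    have e5 : osum F (S.length + (3 * (E + 1) + 3 * E + E + E)) [[.e1], [.e2]] = 0 := by
      have : ∀ j q c, MM S E ≤ j → F j q c = 0 := fun j q c hj =>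
        ind_neg fun hh => absurd hh.1 (not_lt.2 hj)
      simp only [osum]
      rw [sum_eq_zero fun q _ => this _ _ _ (by unfold MM; omega),
        sum_eq_zero fun q _ => this _ _ _ (by unfold MM; omega)]
      rfl
    rw [e1, e2, e3, e4, e5]
    omega
  · intro j hj q c
    have a1 : j < MM S E := by unfold MM; omega
    have a2 : phN S E j q = 2 * (S[j]).2 + q := by
      unfold phN
      rw [if_pos hj]
      simp [List.getD, hj]
    have a3 : flN S E j = False := by
      simp only [flN, eq_iff_iff, iff_false]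
      omega
    simp only [hF, zero_add, a1, a2, a3, true_and]

theorem forall_formula (Q : ℕ → Prop → Let → Prop)
    (h1 : ∀ p ∈ S, ∀ q < 2 * p.1.K + 1, Q (2 * p.2 + q) False (p.1.at q))
    (h2 : ∀ i < 3 * (E + 1), Q (2 * (i / 3)) True .n1)
    (h3 : ∀ i < 3 * E, Q (2 * (i / 3) + 1) True .n2)
    (h4 : ∀ i < E, Q (2 * i) False .s) (h5 : ∀ i < E, Q (2 * i + 1) False .r)
    (x : Occ (words (S.map Prod.fst) E)) (hx : x.1.1 < MM S E) :
    Q (phN S E x.1.1 x.2.1) (flN S E x.1.1) (kdOf _ x) := by
  classical
  have h := card_formula S E (fun a b c => ¬ Q a b c)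
  have z1 : (S.map (fun p => ∑ q ∈ range (2 * p.1.K + 1),
      ind (¬ Q (2 * p.2 + q) False (p.1.at q)))).sum = 0 := by
    apply List.sum_eq_zero
    intro n hn
    obtain ⟨p, hp, rfl⟩ := List.mem_map.1 hn
    exact sum_eq_zero fun q hq => ind_neg (not_not.2 (h1 p hp q (mem_range.1 hq)))
  rw [z1, sum_eq_zero fun i hi => ind_neg (not_not.2 (h2 i (mem_range.1 hi))),
    sum_eq_zero fun i hi => ind_neg (not_not.2 (h3 i (mem_range.1 hi))),
    sum_eq_zero fun i hi => ind_neg (not_not.2 (h4 i (mem_range.1 hi))),
    sum_eq_zero fun i hi => ind_neg (not_not.2 (h5 i (mem_range.1 hi)))] at h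
  simp only [add_zero] at h
  rw [card_eq_zero, filter_eq_empty_iff] at h
  exact not_not.1 (h (by simp [hx]))

theorem sum_single (m c : ℕ) (R : Prop) (Q : ℕ → Prop)
    (h : ∀ q, Q q ↔ q = c ∧ R) (hc : R → c < m) :
    (∑ q ∈ range m, ind (Q q)) = ind R := by
  by_cases hR : R
  · rw [sum_eq_single_of_mem c (mem_range.2 (hc hR)), ind_pos ((h c).2 ⟨rfl, hR⟩), ind_pos hR]
    intro q _ hq
    rw [ind_neg (fun hQ => hq ((h q).1 hQ).1)]
  · rw [ind_neg hR]
    exact sum_eq_zero fun q _ => ind_neg (fun hQ => hR ((h q).1 hQ).2)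

theorem mem_U {w : WD} {x : ℕ} : x ∈ w.U ↔ ∃ d, w.ud = some (x, d) := by
  unfold WD.U
  rcases w.ud with _ | ⟨u, d⟩
  · simp
  · simp [eq_comm]

theorem mem_D {w : WD} {x : ℕ} : x ∈ w.D ↔ ∃ u, w.ud = some (u, x) := by
  unfold WD.D
  rcases w.ud with _ | ⟨u, d⟩
  · simp
  · simp [eq_comm]

theorem occ_ext {ws : List (List Let)} {x y : Occ ws} (h1 : x.1.1 = y.1.1)
    (h2 : x.2.1 = y.2.1) : x = y := by
  obtain ⟨⟨a, ha⟩, ⟨b, hb⟩⟩ := x
  obtain ⟨⟨c, hc⟩, ⟨d, hd⟩⟩ := y
  simp only at h1 h2
  subst h1
  subst h2
  rfl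

theorem occ_get {ws : List (List Let)} (x : Occ ws) {w : List Let}
    (h : ws[x.1.1]? = some w) : ∃ hq : x.2.1 < w.length, kdOf ws x = w[x.2.1] := by
  obtain ⟨⟨a, ha⟩, ⟨b, hb⟩⟩ := x
  rw [List.getElem?_eq_some_iff] at h
  obtain ⟨h1, rfl⟩ := h
  exact ⟨hb, rfl⟩

theorem exists_occ' {ws : List (List Let)} {j q : ℕ} {w : List Let} (h : ws[j]? = some w)
    (hq : q < w.length) : ∃ x : Occ ws, x.1.1 = j ∧ x.2.1 = q := by
  rw [List.getElem?_eq_some_iff] at h
  obtain ⟨h1, rfl⟩ := h
  exact ⟨⟨⟨j, h1⟩, ⟨q, hq⟩⟩, rfl, rfl⟩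

theorem words_split (W : List WD) : words W E =
    (W.map WD.letters ++ List.replicate (3 * (E + 1)) [.n1] ++ List.replicate (3 * E) [.n2] ++
    List.replicate E [.s] ++ List.replicate E [.r]) ++ [[.e1], [.e2]] := rfl

theorem len_words : (words (S.map Prod.fst) E).length = MM S E + 2 := by
  rw [words_split]
  simp only [List.length_append, List.length_map, List.length_replicate, List.length_cons,
    List.length_nil, MM]

theorem get_e1 : (words (S.map Prod.fst) E)[MM S E]? = some [.e1] := by
  have h : ((S.map Prod.fst).map WD.letters ++ List.replicate (3 * (E + 1)) [Let.n1] ++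
      List.replicate (3 * E) [Let.n2] ++ List.replicate E [Let.s] ++
      List.replicate E [Let.r]).length = MM S E := by
    simp only [List.length_append, List.length_map, List.length_replicate, MM]
  rw [words_split, List.getElem?_append_right h.le, h, Nat.sub_self]
  rfl

theorem get_e2 : (words (S.map Prod.fst) E)[MM S E + 1]? = some [.e2] := by
  have h : ((S.map Prod.fst).map WD.letters ++ List.replicate (3 * (E + 1)) [Let.n1] ++
      List.replicate (3 * E) [Let.n2] ++ List.replicate E [Let.s] ++
      List.replicate E [Let.r]).length = MM S E := by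
    simp only [List.length_append, List.length_map, List.length_replicate, MM]
  rw [words_split, List.getElem?_append_right (h.le.trans (Nat.le_succ _)), h,
    show (MM S E).succ - MM S E = 1 by omega]
  rfl

theorem rest_length {w : List Let} (hw : w ∈ rest E) : w.length = 1 := by
  simp only [rest, List.mem_append, List.mem_replicate, List.mem_cons, List.not_mem_nil,
    or_false] at hw
  rcases hw with (((⟨-, h⟩ | ⟨-, h⟩) | ⟨-, h⟩) | ⟨-, h⟩) | h | h <;> subst h <;> rfl

end ModF2

open ModE ModF2 in
theorem feasible_of_sps (S : List (WD × ℕ)) (E : ℕ) (zs : ℕ → Bool) (hS : ∀ p ∈ S, p.1.Ok)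
    (h : SPS S E zs) : Feasible (inst (S.map Prod.fst) E) := by
  classical
  set ws := words (S.map Prod.fst) E with hws
  set T : Finset (Occ ws) := univ.filter (fun x => x.1.1 < MM S E) with hT
  set kd : Occ ws → Let := kdOf ws with hkd
  set ph : Occ ws → ℕ := fun x => phN S E x.1.1 x.2.1 with hph
  set fl : Occ ws → Prop := fun x => flN S E x.1.1 with hfl
  have memT : ∀ x, x ∈ T ↔ x.1.1 < MM S E := fun x => by simp [hT]
  have notletter : ∀ (w : WD) (q : ℕ), w.at q ≠ .s ∧ w.at q ≠ .r := by
    intro w q
    rcases Nat.mod_two_eq_zero_or_one q with h | h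
    · rcases at_even (w := w) h with h | h | h <;> simp [h]
    · rcases at_odd (w := w) h with h | h | h <;> simp [h]
  have c1 : ∀ x ∈ T, ph x ≤ 2 * E := fun x hx =>
    forall_formula S E (fun a _ _ => a ≤ 2 * E)
      (fun p hp q hq => by
        have := h.bd p hp
        omega)
      (fun i hi => by omega) (fun i hi => by omega) (fun i hi => by omega)
      (fun i hi => by omega) x ((memT x).1 hx)
  have c2 : ∀ x ∈ T, ph x % 2 = 0 → kd x = .n1 ∨ kd x = .a ∨ kd x = .z ∨ kd x = .s :=
    fun x hx => forall_formula S E (fun a _ c => a % 2 = 0 → c = .n1 ∨ c = .a ∨ c = .z ∨ c = .s)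
      (fun p hp q hq he => by
        rcases at_even (w := p.1) (q := q) (by omega) with h | h | h <;> simp [h])
      (fun i hi _ => by simp) (fun i hi he => by omega) (fun i hi _ => by simp)
      (fun i hi he => by omega) x ((memT x).1 hx)
  have c3 : ∀ x ∈ T, ph x % 2 = 1 → kd x = .n2 ∨ kd x = .up ∨ kd x = .dn ∨ kd x = .r :=
    fun x hx => forall_formula S E (fun a _ c => a % 2 = 1 → c = .n2 ∨ c = .up ∨ c = .dn ∨ c = .r)
      (fun p hp q hq he => by
        rcases at_odd (w := p.1) (q := q) (by omega) with h | h | h <;> simp [h])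
      (fun i hi he => by omega) (fun i hi _ => by simp) (fun i hi he => by omega)
      (fun i hi _ => by simp) x ((memT x).1 hx)
  have c4 : ∀ x ∈ T, fl x → kd x = .n1 ∨ kd x = .n2 :=
    fun x hx => forall_formula S E (fun _ b c => b → c = .n1 ∨ c = .n2)
      (fun p hp q hq he => he.elim) (fun i hi _ => by simp) (fun i hi he => by simp)
      (fun i hi he => he.elim) (fun i hi he => he.elim) x ((memT x).1 hx)
  have three_le : ∀ m t, 3 * t + 2 < m → 3 ≤ ∑ i ∈ range m, ind (i / 3 = t) := by
    intro m t hm
    have : ({3 * t, 3 * t + 1, 3 * t + 2} : Finset ℕ) ⊆ (range m).filter (fun i => i / 3 = t) := by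
      intro i hi
      simp only [mem_insert, mem_singleton] at hi
      simp only [mem_filter, mem_range]
      omega
    have h2 := card_le_card this
    rw [card_filter, card_insert_of_notMem, card_insert_of_notMem, card_singleton] at h2
    · refine h2.trans (le_of_eq (sum_congr rfl fun i _ => ?_))
      rw [ind_eq]
    · simp
    · simp
  have c5 : ∀ p ≤ 2 * E, 3 ≤ (T.filter (fun x => ph x = p ∧ fl x)).card := by
    intro p hp
    have hf := card_formula S E (fun a b _ => a = p ∧ b)
    rw [show (T.filter (fun x => ph x = p ∧ fl x)).card = _ from hf]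
    rcases Nat.mod_two_eq_zero_or_one p with he | he
    · have h1 : 3 ≤ ∑ i ∈ range (3 * (E + 1)), ind (2 * (i / 3) = p ∧ True) := by
        refine (three_le (3 * (E + 1)) (p / 2) (by omega)).trans (le_of_eq
          (sum_congr rfl fun i _ => ind_congr ?_))
        rw [and_true]
        omega
      omega
    · have h1 : 3 ≤ ∑ i ∈ range (3 * E), ind (2 * (i / 3) + 1 = p ∧ True) := by
        refine (three_le (3 * E) (p / 2) (by omega)).trans (le_of_eq
          (sum_congr rfl fun i _ => ind_congr ?_))
        rw [and_true]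
        omega
      omega
  have z0 : ∀ (m : ℕ) (Q : ℕ → Prop), (∀ i, ¬ Q i) → ∑ i ∈ range m, ind (Q i) = 0 :=
    fun m Q hQ => sum_eq_zero fun i _ => ind_neg (hQ i)
  have zS : ∀ (Q : WD × ℕ → ℕ → Prop), (∀ p q, ¬ Q p q) →
      (S.map (fun p => ∑ q ∈ range (2 * p.1.K + 1), ind (Q p q))).sum = 0 := by
    intro Q hQ
    apply List.sum_eq_zero
    intro n hn
    obtain ⟨p, hp, rfl⟩ := List.mem_map.1 hn
    exact z0 _ _ (hQ p)
  -- letters `s` and `r`
  have c6 : ∀ t < E, (T.filter (fun x => ph x = 2 * t ∧ kd x = .s)).card = 1 := by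
    intro t ht
    have hf := card_formula S E (fun a _ c => a = 2 * t ∧ c = .s)
    rw [show (T.filter (fun x => ph x = 2 * t ∧ kd x = .s)).card = _ from hf,
      zS _ (fun p q => by simp [notletter]), z0 _ _ (by simp), z0 _ _ (by simp),
      z0 _ (fun i => 2 * i + 1 = 2 * t ∧ Let.r = Let.s) (by simp),
      sum_single E t True _ (fun q => by simp) (fun _ => ht), ind_pos trivial]
  have c7 : (T.filter (fun x => ph x = 2 * E ∧ kd x = .s)).card = 0 := by
    have hf := card_formula S E (fun a _ c => a = 2 * E ∧ c = .s)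
    rw [show (T.filter (fun x => ph x = 2 * E ∧ kd x = .s)).card = _ from hf,
      zS _ (fun p q => by simp [notletter]), z0 _ _ (by simp), z0 _ _ (by simp),
      z0 _ (fun i => 2 * i + 1 = 2 * E ∧ Let.r = Let.s) (by simp)]
    have : ∑ i ∈ range E, ind (2 * i = 2 * E ∧ Let.s = Let.s) = 0 :=
      sum_eq_zero fun i hi => ind_neg (by
        have := mem_range.1 hi
        simp
        omega)
    rw [this]
  have c8 : ∀ t < E, (T.filter (fun x => ph x = 2 * t + 1 ∧ kd x = .r)).card = 1 := by
    intro t ht
    have hf := card_formula S E (fun a _ c => a = 2 * t + 1 ∧ c = .r)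
    rw [show (T.filter (fun x => ph x = 2 * t + 1 ∧ kd x = .r)).card = _ from hf,
      zS _ (fun p q => by simp [notletter]), z0 _ _ (by simp), z0 _ _ (by simp),
      z0 _ (fun i => 2 * i = 2 * t + 1 ∧ Let.s = Let.r) (by simp),
      sum_single E t True _ (fun q => by simp) (fun _ => ht), ind_pos trivial]
  -- the letters of the main words
  have cA : ∀ t, (T.filter (fun x => ph x = 2 * t ∧ kd x = .a)).card = cntAt S WD.A t := by
    intro t
    have hf := card_formula S E (fun a _ c => a = 2 * t ∧ c = .a)
    rw [show (T.filter (fun x => ph x = 2 * t ∧ kd x = .a)).card = _ from hf,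
      z0 _ (fun i => 2 * (i / 3) = 2 * t ∧ Let.n1 = Let.a) (by simp),
      z0 _ (fun i => 2 * (i / 3) + 1 = 2 * t ∧ Let.n2 = Let.a) (by simp),
      z0 _ (fun i => 2 * i = 2 * t ∧ Let.s = Let.a) (by simp),
      z0 _ (fun i => 2 * i + 1 = 2 * t ∧ Let.r = Let.a) (by simp)]
    simp only [add_zero]
    refine sum_ind_eq_countP S _ _ fun p hp => ?_
    refine sum_single _ (2 * (t - p.2)) _ _ (fun q => ?_) (fun hR => ?_)
    · rw [at_a (hS p hp)]
      constructor
      · rintro ⟨h1, h2, h3⟩
        have : t - p.2 = q / 2 := by omega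
        rw [this]
        exact ⟨by omega, by omega, h3⟩
      · rintro ⟨h1, h2, h3⟩
        refine ⟨by omega, by omega, ?_⟩
        rw [h1, Nat.mul_div_cancel_left _ (by norm_num)]
        exact h3
    · have := (hS p hp).hA _ hR.2
      omega
  have cZ : ∀ t, (T.filter (fun x => ph x = 2 * t ∧ kd x = .z)).card = cntAt S WD.Z t := by
    intro t
    have hf := card_formula S E (fun a _ c => a = 2 * t ∧ c = .z)
    rw [show (T.filter (fun x => ph x = 2 * t ∧ kd x = .z)).card = _ from hf,
      z0 _ (fun i => 2 * (i / 3) = 2 * t ∧ Let.n1 = Let.z) (by simp),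
      z0 _ (fun i => 2 * (i / 3) + 1 = 2 * t ∧ Let.n2 = Let.z) (by simp),
      z0 _ (fun i => 2 * i = 2 * t ∧ Let.s = Let.z) (by simp),
      z0 _ (fun i => 2 * i + 1 = 2 * t ∧ Let.r = Let.z) (by simp)]
    simp only [add_zero]
    refine sum_ind_eq_countP S _ _ fun p hp => ?_
    refine sum_single _ (2 * (t - p.2)) _ _ (fun q => ?_) (fun hR => ?_)
    · rw [at_z]
      constructor
      · rintro ⟨h1, h2, h3⟩
        have : t - p.2 = q / 2 := by omega
        rw [this]
        exact ⟨by omega, by omega, h3⟩
      · rintro ⟨h1, h2, h3⟩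
        refine ⟨by omega, by omega, ?_⟩
        rw [h1, Nat.mul_div_cancel_left _ (by norm_num)]
        exact h3
    · have := (hS p hp).hZ _ hR.2
      omega
  have cU : ∀ t, (T.filter (fun x => ph x = 2 * t + 1 ∧ kd x = .up)).card = cntAt S WD.U t := by
    intro t
    have hf := card_formula S E (fun a _ c => a = 2 * t + 1 ∧ c = .up)
    rw [show (T.filter (fun x => ph x = 2 * t + 1 ∧ kd x = .up)).card = _ from hf,
      z0 _ (fun i => 2 * (i / 3) = 2 * t + 1 ∧ Let.n1 = Let.up) (by simp),
      z0 _ (fun i => 2 * (i / 3) + 1 = 2 * t + 1 ∧ Let.n2 = Let.up) (by simp),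
      z0 _ (fun i => 2 * i = 2 * t + 1 ∧ Let.s = Let.up) (by simp),
      z0 _ (fun i => 2 * i + 1 = 2 * t + 1 ∧ Let.r = Let.up) (by simp)]
    simp only [add_zero]
    refine sum_ind_eq_countP S _ _ fun p hp => ?_
    refine sum_single _ (2 * (t - p.2) + 1) _ _ (fun q => ?_) (fun hR => ?_)
    · rw [at_up, mem_U]
      constructor
      · rintro ⟨h1, h2, h3⟩
        have : t - p.2 = q / 2 := by omega
        rw [this]
        exact ⟨by omega, by omega, h3⟩
      · rintro ⟨h1, h2, h3⟩
        refine ⟨by omega, by omega, ?_⟩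
        have : q / 2 = t - p.2 := by omega
        rw [this]
        exact h3
    · obtain ⟨d, hd⟩ := mem_U.1 hR.2
      have := (hS p hp).hud _ _ hd
      omega
  have cD : ∀ t, (T.filter (fun x => ph x = 2 * t + 1 ∧ kd x = .dn)).card = cntAt S WD.D t := by
    intro t
    have hf := card_formula S E (fun a _ c => a = 2 * t + 1 ∧ c = .dn)
    rw [show (T.filter (fun x => ph x = 2 * t + 1 ∧ kd x = .dn)).card = _ from hf,
      z0 _ (fun i => 2 * (i / 3) = 2 * t + 1 ∧ Let.n1 = Let.dn) (by simp),
      z0 _ (fun i => 2 * (i / 3) + 1 = 2 * t + 1 ∧ Let.n2 = Let.dn) (by simp),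
      z0 _ (fun i => 2 * i = 2 * t + 1 ∧ Let.s = Let.dn) (by simp),
      z0 _ (fun i => 2 * i + 1 = 2 * t + 1 ∧ Let.r = Let.dn) (by simp)]
    simp only [add_zero]
    refine sum_ind_eq_countP S _ _ fun p hp => ?_
    refine sum_single _ (2 * (t - p.2) + 1) _ _ (fun q => ?_) (fun hR => ?_)
    · rw [at_dn (hS p hp), mem_D]
      constructor
      · rintro ⟨h1, h2, h3⟩
        have : t - p.2 = q / 2 := by omega
        rw [this]
        exact ⟨by omega, by omega, h3⟩
      · rintro ⟨h1, h2, h3⟩
        refine ⟨by omega, by omega, ?_⟩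
        have : q / 2 = t - p.2 := by omega
        rw [this]
        exact h3
    · obtain ⟨d, hd⟩ := mem_D.1 hR.2
      have := (hS p hp).hud _ _ hd
      omega
  obtain ⟨l, hl1, hl2, hl3, hl4⟩ := order_of_phases T kd ph fl E zs c1 c2 c3 c4 c5 c6 c7 c8
    (fun t ht => by rw [cA, cZ]; exact h.bal t ht)
    (fun t ht hz => by rw [cA]; exact h.blk t ht hz)
    (fun t ht => by rw [cU]; exact h.up t ht)
    (fun t ht => by rw [cD]; exact h.dn t ht) h.z0 h.zE
  have ge1 : ws[MM S E]? = some [.e1] := get_e1 S E
  have ge2 : ws[MM S E + 1]? = some [.e2] := get_e2 S E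
  have hlen : ws.length = MM S E + 2 := len_words S E
  obtain ⟨x1, hx1, hx1'⟩ := exists_occ' ge1 (q := 0) (by simp)
  obtain ⟨x2, hx2, hx2'⟩ := exists_occ' ge2 (q := 0) (by simp)
  have k1 : kd x1 = .e1 := by
    obtain ⟨hq, h1⟩ := occ_get x1 (w := [.e1]) (by rw [hx1]; exact ge1)
    rw [hkd, h1]
    simp [hx1']
  have k2 : kd x2 = .e2 := by
    obtain ⟨hq, h1⟩ := occ_get x2 (w := [.e2]) (by rw [hx2]; exact ge2)
    rw [hkd, h1]
    simp [hx2']
  have n1 : x1 ∉ l := fun hx => by
    have := (memT x1).1 ((hl2 x1).1 hx)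
    omega
  have n2 : x2 ∉ l := fun hx => by
    have := (memT x2).1 ((hl2 x2).1 hx)
    omega
  have n12 : x1 ≠ x2 := fun hx => by
    rw [hx] at hx1
    omega
  have hn' : (l ++ [x1, x2]).Nodup := by
    rw [List.nodup_append]
    refine ⟨hl1, by simp [n12], ?_⟩
    intro a ha b hb hab
    subst hab
    simp only [List.mem_cons, List.not_mem_nil, or_false] at hb
    rcases hb with hb | hb
    · exact n1 (hb ▸ ha)
    · exact n2 (hb ▸ ha)
  have hc' : ∀ x, x ∈ l ++ [x1, x2] := by
    intro x
    rw [List.mem_append]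
    by_cases hx : x.1.1 < MM S E
    · exact Or.inl ((hl2 x).2 ((memT x).2 hx))
    · right
      have h1 : x.1.1 < MM S E + 2 := lt_of_lt_of_eq x.1.2 hlen
      rcases (by omega : x.1.1 = MM S E ∨ x.1.1 = MM S E + 1) with h2 | h2
      · obtain ⟨hq, -⟩ := occ_get x (w := [.e1]) (by rw [h2]; exact ge1)
        simp only [List.length_cons, List.length_nil] at hq
        have : x = x1 := occ_ext (by omega) (by omega)
        simp [this]
      · obtain ⟨hq, -⟩ := occ_get x (w := [.e2]) (by rw [h2]; exact ge2)
        simp only [List.length_cons, List.length_nil] at hq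
        have : x = x2 := occ_ext (by omega) (by omega)
        simp [this]
  have hr' : run .N1 ((l ++ [x1, x2]).map kd) = some .F2 := by
    rw [List.map_append]
    refine F1.run_append_some hl3 ?_
    simp [k1, k2, run, step]
  obtain ⟨t1, t2, t3, hGS, hsep⟩ := gs_of_order kd (l ++ [x1, x2]) hn' hc' hr'
  have hL : ((l ++ [x1, x2]).map (fun x => pp (kd x))).sum = Lof ws := by
    rw [← List.sum_toFinset _ hn',
      show (l ++ [x1, x2]).toFinset = univ from by ext x; simp [-List.toFinset_append, hc' x]]
    rw [hkd, ModE.sum_occ ws pp, Lof, List.map_flatten, List.sum_flatten, List.map_map]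
    rfl
  rw [hL] at hGS
  have hphase : ∀ x y : Occ ws, x.1.1 < MM S E → y.1.1 < MM S E → ph x < ph y → ¬ fl y →
      t1 x + pp (kd x) ≤ t1 y ∧ (0 < uu (kd x) → t2 x + uu (kd x) ≤ t1 y) ∧
        (0 < vv (kd x) → t3 x + vv (kd x) ≤ t1 y) := by
    intro x y hx hy hxy hfy
    have hxT := (memT x).2 hx
    have hyT := (memT y).2 hy
    have := hl4 x hxT y hyT hxy hfy
    refine hsep x y ?_
    rw [List.idxOf_append_of_mem ((hl2 x).2 hxT), List.idxOf_append_of_mem ((hl2 y).2 hyT)]
    exact this
  have hwords : ws = (S.map Prod.fst).map WD.letters ++ rest E := words_eq _ _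
  have hrest : ∀ i, S.length ≤ i → ws[i]? = (rest E)[i - S.length]? := by
    intro i hi
    rw [hwords, List.getElem?_append_right (by simpa using hi)]
    simp
  obtain ⟨s, hs⟩ := nsched_of_gs ws (words_three _ E) (Lof ws) t1 t2 t3 0 0 hGS
    (fun j k k' hk => by
      have hj : j.1 < S.length := by
        by_contra hcon
        have h0 := hrest j.1 (by omega)
        have h1 : ws.get j ∈ rest E := by
          rw [List.getElem?_eq_getElem j.2] at h0
          exact List.mem_of_getElem? h0.symm
        have h2 := rest_length E h1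
        have h3 := k'.2
        omega
      have hM : j.1 < MM S E := by unfold MM; omega
      refine hphase ⟨j, k⟩ ⟨j, k'⟩ hM hM ?_ ?_
      · show phN S E j.1 k.1 < phN S E j.1 k'.1
        unfold phN
        rw [if_pos hj, if_pos hj]
        omega
      · show ¬ flN S E j.1
        unfold flN
        omega)
  exact (feasible_iff _ _).2 ⟨s, hs⟩

end Pool.Agent.helper66.JS
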