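import Pool.Agent.helper66.JS.Defs2

/-!
# Module E: from the order of the letters to ticks
-/

set_option autoImplicit false
set_option linter.unusedSectionVars false

namespace Pool.Agent.helper66.JS

open Finset

namespace ModE

/-- mode bit -/
def mb : St → ℕ
  | .N2 | .Z2 => 1
  | _ => 0

/-- blocking bit -/
def zb : St → ℕ
  | .Z1 | .Z2 => 1
  | _ => 0

/-- pending `a` -/
def xb : St → ℕ
  | .X => 1
  | _ => 0

theorem step_inv {S S' : St} {x : Let} (h : step S x = some S') :
    (if x = .s then 1 else 0) + mb S = (if x = .r then 1 else 0) + mb S' ∧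
    (if x = .up then 1 else 0) + zb S = (if x = .dn then 1 else 0) + zb S' ∧
    (if x = .a then 1 else 0) + xb S = (if x = .z then 1 else 0) + xb S' := by
  cases S <;> cases x <;>
    first
    | (simp [step] at h; done)
    | (simp only [step, Option.some.injEq] at h; subst h; simp [mb, zb, xb])

theorem run_append (q : St) (l m : List Let) :
    run q (l ++ m) = (run q l).bind (fun q' => run q' m) := by
  induction l generalizing q with
  | nil => rfl
  | cons x l ih =>
    show (step q x).bind (fun S' => run S' (l ++ m)) =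
      ((step q x).bind (fun S' => run S' l)).bind (fun q' => run q' m)
    cases step q x with
    | none => rfl
    | some q1 => exact ih q1

theorem run_inv (w : List Let) {S0 S : St} (h : run S0 w = some S) :
    w.count .s + mb S0 = w.count .r + mb S ∧ w.count .up + zb S0 = w.count .dn + zb S ∧
      w.count .a + xb S0 = w.count .z + xb S := by
  induction w generalizing S0 with
  | nil =>
    have : S0 = S := by simpa [run] using h
    subst this
    simp
  | cons x w ih =>
    have h' : (step S0 x).bind (fun S' => run S' w) = some S := h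
    rcases hx : step S0 x with _ | S1
    · rw [hx] at h'; simp at h'
    · rw [hx] at h'
      obtain ⟨i1, i2, i3⟩ := ih (S0 := S1) (by simpa using h')
      obtain ⟨j1, j2, j3⟩ := step_inv hx
      simp only [List.count_cons, beq_iff_eq]
      refine ⟨?_, ?_, ?_⟩ <;> omega

section
variable {Λ : Type} [Fintype Λ] [DecidableEq Λ] (kd : Λ → Let) (t : Λ → ℕ)

/-- number of letters `c` before `x` -/
def N (c : Let) (x : Λ) : ℕ := (univ.filter (fun y => t y < t x ∧ kd y = c)).card

theorem N_mono (c : Let) {x y : Λ} (h : t x ≤ t y) : N kd t c x ≤ N kd t c y := by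
  refine card_le_card fun z hz => ?_
  simp only [mem_filter, mem_univ, true_and] at hz ⊢
  exact ⟨lt_of_lt_of_le hz.1 h, hz.2⟩

theorem N_lt (c : Let) {x y : Λ} (h : t x < t y) (hx : kd x = c) : N kd t c x < N kd t c y := by
  refine card_lt_card ⟨fun z hz => ?_, fun hsub => ?_⟩
  · simp only [mem_filter, mem_univ, true_and] at hz ⊢
    exact ⟨lt_trans hz.1 h, hz.2⟩
  · have : x ∈ univ.filter (fun z => t z < t x ∧ kd z = c) := hsub (by simp [h, hx])
    simp at this

variable {l : List Λ} (hn : l.Nodup) (hc : ∀ x, x ∈ l)
  (hs : l.Pairwise (fun x y => t x < t y)) (hr : run .N1 (l.map kd) = some .F2)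

include hc hs in
theorem mem_pre {l1 l2 : List Λ} {x : Λ} (h : l = l1 ++ x :: l2) (y : Λ) :
    y ∈ l1 ↔ t y < t x := by
  rw [h, List.pairwise_append] at hs
  obtain ⟨h1, h2, h3⟩ := hs
  constructor
  · intro hy
    exact h3 y hy x (by simp)
  · intro hy
    have hm := hc y
    rw [h] at hm
    rcases List.mem_append.1 hm with hm | hm
    · exact hm
    · exfalso
      rcases List.mem_cons.1 hm with hm | hm
      · subst hm
        exact lt_irrefl _ hy
      · have := (List.pairwise_cons.1 h2).1 y hm
        omega

include hc hs hn in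
theorem N_eq {l1 l2 : List Λ} {x : Λ} (h : l = l1 ++ x :: l2) (c : Let) :
    N kd t c x = (l1.map kd).count c := by
  have hn1 : l1.Nodup := by
    rw [h] at hn
    exact (List.nodup_append.1 hn).1
  have e : univ.filter (fun y => t y < t x ∧ kd y = c) =
      (l1.filter (fun y => decide (kd y = c))).toFinset := by
    ext y
    simp only [mem_filter, mem_univ, true_and, List.mem_toFinset, List.mem_filter,
      decide_eq_true_eq]
    rw [mem_pre t hc hs h]
  rw [N, e, List.toFinset_card_of_nodup (hn1.filter _), List.count, List.countP_map,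
    List.countP_eq_length_filter]
  congr 1

include hc hr in
theorem split (x : Λ) : ∃ l1 l2 S S', l = l1 ++ x :: l2 ∧ run .N1 (l1.map kd) = some S ∧
    step S (kd x) = some S' := by
  obtain ⟨l1, l2, h⟩ := List.append_of_mem (hc x)
  rw [h, List.map_append, run_append] at hr
  rcases hS : run .N1 (l1.map kd) with _ | S
  · rw [hS] at hr; simp at hr
  · rw [hS] at hr
    have hr' : run S (kd x :: l2.map kd) = some .F2 := by simpa using hr
    have hr'' : (step S (kd x)).bind (fun S' => run S' (l2.map kd)) = some .F2 := hr'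
    rcases hS' : step S (kd x) with _ | S'
    · rw [hS'] at hr''; simp at hr''
    · exact ⟨l1, l2, S, S', h, hS, hS'⟩

include hc hs hn hr in
theorem info (x : Λ) : ∃ S S', step S (kd x) = some S' ∧
    N kd t .s x = N kd t .r x + mb S ∧ N kd t .up x = N kd t .dn x + zb S := by
  obtain ⟨l1, l2, S, S', h, h1, h2⟩ := split kd hc hr x
  obtain ⟨i1, i2, -⟩ := run_inv _ h1
  refine ⟨S, S', h2, ?_, ?_⟩
  · rw [N_eq kd t hn hc hs h, N_eq kd t hn hc hs h]; simpa [mb] using i1
  · rw [N_eq kd t hn hc hs h, N_eq kd t hn hc hs h]; simpa [zb] using i2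

include hc hs hn hr in
theorem mode1 {x : Λ} (h : kd x = .n1 ∨ kd x = .a ∨ kd x = .z) :
    N kd t .s x = N kd t .r x := by
  obtain ⟨S, S', h1, h2, -⟩ := info kd t hn hc hs hr x
  rw [h2]
  rcases h with h | h | h <;> rw [h] at h1 <;> cases S <;> simp [step, mb] at h1 ⊢

include hc hs hn hr in
theorem mode2 {x : Λ} (h : kd x = .n2 ∨ kd x = .up ∨ kd x = .dn) :
    N kd t .s x = N kd t .r x + 1 := by
  obtain ⟨S, S', h1, h2, -⟩ := info kd t hn hc hs hr x
  rw [h2]
  rcases h with h | h | h <;> rw [h] at h1 <;> cases S <;> simp [step, mb] at h1 ⊢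

include hc hs hn hr in
theorem az {x : Λ} (h : kd x = .a ∨ kd x = .z) :
    N kd t .up x = N kd t .dn x := by
  obtain ⟨S, S', h1, -, h2⟩ := info kd t hn hc hs hr x
  rw [h2]
  rcases h with h | h <;> rw [h] at h1 <;> cases S <;> simp [step, zb] at h1 ⊢

include hc hs hn hr in
theorem strict {x y : Λ} (hx : kd x = .n2 ∨ kd x = .up ∨ kd x = .dn)
    (hy : kd y = .n1 ∨ kd y = .a ∨ kd y = .z) (h : t x < t y) :
    N kd t .r x < N kd t .r y := by
  have h1 := mode2 kd t hn hc hs hr hx
  have h2 := mode1 kd t hn hc hs hr hy
  have h3 := N_mono kd t .s h.le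
  omega

theorem countP_eq_card (hn : l.Nodup) (hc : ∀ x, x ∈ l) (p : Λ → Prop) [DecidablePred p] :
    l.countP (fun x => decide (p x)) = (univ.filter p).card := by
  rw [List.countP_eq_length_filter, ← List.toFinset_card_of_nodup (hn.filter _)]
  congr 1
  ext y
  simp [hc y]

include hc hs hn hr in
theorem tick_bal (m : ℕ) : (univ.filter (fun x => kd x = .a ∧ N kd t .r x = m)).card =
    (univ.filter (fun x => kd x = .z ∧ N kd t .r x = m)).card := by
  have key : ∀ l1 l2 : List Λ, l = l1 ++ l2 → ∀ S, run .N1 (l1.map kd) = some S →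
      l1.countP (fun x => decide (kd x = .a ∧ N kd t .r x = m)) =
      l1.countP (fun x => decide (kd x = .z ∧ N kd t .r x = m)) +
        if xb S = 1 ∧ (l1.map kd).count .r = m then 1 else 0 := by
    intro l1
    induction l1 using List.reverseRecOn with
    | nil =>
      intro l2 _ S hS
      have : S = .N1 := by simpa [run] using hS.symm
      subst this
      simp [xb]
    | append_singleton l1 x ih =>
      intro l2 hl S' hS'
      have hl' : l = l1 ++ x :: l2 := by simpa using hl
      rw [List.map_append, run_append] at hS'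
      rcases hS : run .N1 (l1.map kd) with _ | S
      · rw [hS] at hS'; simp at hS'
      · rw [hS] at hS'
        have hS'' : step S (kd x) = some S' := by
          have : (step S (kd x)).bind (fun S' => some S') = some S' := hS'
          rcases h0 : step S (kd x) with _ | S1
          · rw [h0] at this; simp at this
          · rw [h0] at this; simpa using this
        have i := ih (x :: l2) hl' S hS
        have hN := N_eq kd t hn hc hs hl' .r
        rw [List.countP_append, List.countP_append, i, List.countP_singleton,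
          List.countP_singleton, List.map_append, List.count_append, hN]
        generalize (l1.map kd).count Let.r = R
        generalize l1.countP (fun x => decide (kd x = .z ∧ N kd t .r x = m)) = Q
        simp only [List.map_cons, List.map_nil, List.count_singleton, decide_eq_true_eq]
        generalize kd x = k at hS'' ⊢
        by_cases hm : R = m
        · subst hm
          cases S <;> cases k <;>
            first
            | (simp [step] at hS''; done)
            | (simp only [step, Option.some.injEq] at hS''; subst hS''; simp [xb])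
        · cases S <;> cases k <;>
            first
            | (simp [step] at hS''; done)
            | (simp only [step, Option.some.injEq] at hS''; subst hS''; simp [xb, hm])
  have h := key l [] (by simp) _ hr
  rw [countP_eq_card hn hc (fun x => kd x = .a ∧ N kd t .r x = m),
    countP_eq_card hn hc (fun x => kd x = .z ∧ N kd t .r x = m)] at h
  simpa [xb] using h

end

/-! ### letters of words -/

theorem at_a {w : WD} (hw : w.Ok) (q : ℕ) : w.at q = .a ↔ q % 2 = 0 ∧ q / 2 ∈ w.A := by
  unfold WD.at
  by_cases h0 : q % 2 = 0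
  · have hd := Finset.disjoint_left.1 hw.disj
    by_cases h1 : q / 2 ∈ w.Z
    · have h2 : q / 2 ∉ w.A := fun h => hd h h1
      simp [h0, h1, h2]
    · by_cases h2 : q / 2 ∈ w.A <;> simp [h0, h1, h2]
  · rcases w.ud with _ | ⟨u, d⟩
    · simp [h0]
    · simp only [h0, if_false, false_and, iff_false]
      split_ifs <;> simp

theorem at_z {w : WD} (q : ℕ) : w.at q = .z ↔ q % 2 = 0 ∧ q / 2 ∈ w.Z := by
  unfold WD.at
  by_cases h0 : q % 2 = 0
  · by_cases h1 : q / 2 ∈ w.Z
    · simp [h0, h1]
    · by_cases h2 : q / 2 ∈ w.A <;> simp [h0, h1, h2]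
  · rcases w.ud with _ | ⟨u, d⟩
    · simp [h0]
    · simp only [h0, if_false, false_and, iff_false]
      split_ifs <;> simp

theorem at_up {w : WD} (q : ℕ) : w.at q = .up ↔ q % 2 = 1 ∧ ∃ d, w.ud = some (q / 2, d) := by
  unfold WD.at
  by_cases h0 : q % 2 = 0
  · rw [if_pos h0]
    have : ¬ q % 2 = 1 := by omega
    simp only [this, false_and, iff_false]
    split_ifs <;> simp
  · have h1 : q % 2 = 1 := by omega
    rw [if_neg h0]
    rcases w.ud with _ | ⟨u, d⟩
    · simp
    · simp only [h1, true_and, Option.some.injEq, Prod.mk.injEq, exists_and_left, exists_eq',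
        and_true]
      split_ifs with h2 h3
      · simp [h2]
      · simp [Ne.symm h2]
      · simp [Ne.symm h2]

theorem at_dn {w : WD} (hw : w.Ok) (q : ℕ) :
    w.at q = .dn ↔ q % 2 = 1 ∧ ∃ u, w.ud = some (u, q / 2) := by
  unfold WD.at
  by_cases h0 : q % 2 = 0
  · rw [if_pos h0]
    have : ¬ q % 2 = 1 := by omega
    simp only [this, false_and, iff_false]
    split_ifs <;> simp
  · have h1 : q % 2 = 1 := by omega
    rw [if_neg h0]
    rcases hud : w.ud with _ | ⟨u, d⟩
    · simp
    · have := hw.hud u d hud
      simp only [h1, true_and, Option.some.injEq, Prod.mk.injEq, exists_eq_left']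
      split_ifs with h2 h3
      · constructor
        · intro h; simp at h
        · intro h; omega
      · simp [h3]
      · simp [Ne.symm h3]

theorem at_even {w : WD} {q : ℕ} (h : q % 2 = 0) :
    w.at q = .n1 ∨ w.at q = .a ∨ w.at q = .z := by
  unfold WD.at
  rw [if_pos h]
  split_ifs <;> simp

theorem at_odd {w : WD} {q : ℕ} (h : q % 2 = 1) :
    w.at q = .n2 ∨ w.at q = .up ∨ w.at q = .dn := by
  unfold WD.at
  rw [if_neg (by omega)]
  rcases w.ud with _ | ⟨u, d⟩
  · simp
  · simp only
    split_ifs <;> simp

/-- words other than the given ones -/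
def rest (E : ℕ) : List (List Let) :=
  List.replicate (3 * (E + 1)) [.n1] ++ List.replicate (3 * E) [.n2] ++
    List.replicate E [.s] ++ List.replicate E [.r] ++ [[.e1], [.e2]]

theorem words_eq (W : List WD) (E : ℕ) : words W E = W.map WD.letters ++ rest E := by
  simp [words, rest, List.append_assoc]

theorem rest_letters {E : ℕ} {w : List Let} (hw : w ∈ rest E) {c : Let} (hc : c ∈ w) :
    c ≠ .a ∧ c ≠ .z ∧ c ≠ .up ∧ c ≠ .dn := by
  simp only [rest, List.mem_append, List.mem_replicate, List.mem_cons, List.not_mem_nil,
    or_false] at hw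
  rcases hw with (((⟨-, h⟩ | ⟨-, h⟩) | ⟨-, h⟩) | ⟨-, h⟩) | h | h <;> subst h <;>
    simp only [List.mem_singleton] at hc <;> subst hc <;> simp

theorem letters_length (w : WD) : w.letters.length = 2 * w.K + 1 := by
  simp [WD.letters]

variable (W : List WD) (E : ℕ)

theorem words_get (j : Fin W.length) (hj : j.1 < (words W E).length) :
    (words W E)[j.1] = (W.get j).letters := by
  have : (words W E)[j.1]? = some (W.get j).letters := by
    rw [words_eq, List.getElem?_append_left (by simp)]
    simp
  rw [List.getElem?_eq_getElem hj] at this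
  simpa using this

theorem lt_words (j : Fin W.length) : j.1 < (words W E).length := by
  have := j.2
  rw [words_eq]
  simp only [List.length_append, List.length_map]
  omega

/-- occurrence number `q` of word `j` -/
def occ (j : Fin W.length) (q : ℕ) (hq : q < 2 * (W.get j).K + 1) : Occ (words W E) :=
  ⟨⟨j.1, lt_words W E j⟩, ⟨q, by
    have h := words_get W E j (lt_words W E j)
    rw [List.get_eq_getElem]
    simp only [h, letters_length]
    exact hq⟩⟩

theorem kd_occ (j : Fin W.length) (q : ℕ) (hq : q < 2 * (W.get j).K + 1) :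
    kdOf (words W E) (occ W E j q hq) = (W.get j).at q := by
  have h := words_get W E j (lt_words W E j)
  have h1 : ((words W E)[j.1]'(lt_words W E j))[q]? = some ((W.get j).at q) := by
    rw [h, WD.letters, List.getElem?_map, List.getElem?_range hq]
    rfl
  unfold kdOf occ
  simp only [List.get_eq_getElem]
  rw [List.getElem?_eq_some_iff] at h1
  obtain ⟨h2, h3⟩ := h1
  exact h3

theorem exists_occ (x : Occ (words W E)) (h : x.1.1 < W.length) :
    ∃ (j : Fin W.length) (q : ℕ) (hq : q < 2 * (W.get j).K + 1), x = occ W E j q hq := by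
  obtain ⟨⟨j, hj⟩, ⟨q, hq⟩⟩ := x
  refine ⟨⟨j, h⟩, q, ?_, rfl⟩
  have h1 := words_get W E ⟨j, h⟩ hj
  rw [List.get_eq_getElem] at hq
  simp only [h1, letters_length] at hq
  exact hq

theorem kd_mem (x : Occ (words W E)) (h : W.length ≤ x.1.1) :
    kdOf _ x ≠ .a ∧ kdOf _ x ≠ .z ∧ kdOf _ x ≠ .up ∧ kdOf _ x ≠ .dn := by
  obtain ⟨⟨j, hj⟩, q⟩ := x
  have h0 : (words W E)[j]? = (rest E)[j - W.length]? := by
    rw [words_eq, List.getElem?_append_right (by simpa using h)]
    simp
  have h1 : (words W E).get ⟨j, hj⟩ ∈ rest E := by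
    rw [List.getElem?_eq_getElem hj] at h0
    exact List.mem_of_getElem? h0.symm
  exact rest_letters h1 (List.get_mem _ _)

theorem occ_inj {j j' : Fin W.length} {q q' : ℕ} {hq : q < 2 * (W.get j).K + 1}
    {hq' : q' < 2 * (W.get j').K + 1} (h : occ W E j q hq = occ W E j' q' hq') :
    j = j' ∧ q = q' := by
  unfold occ at h
  have h1 : j.1 = j'.1 := congrArg (fun x : Occ (words W E) => x.1.1) h
  have h2 : q = q' := congrArg (fun x : Occ (words W E) => x.2.1) h
  exact ⟨Fin.ext h1, h2⟩

/-- sums over occurrences -/
theorem sum_occ (ws : List (List Let)) (f : Let → ℕ) :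
    ∑ x : Occ ws, f (kdOf ws x) = (ws.map (fun w => (w.map f).sum)).sum := by
  have h1 : ∀ (w : List Let), ∑ k : Fin w.length, f (w.get k) = (w.map f).sum := by
    intro w
    rw [← List.sum_ofFn]
    congr 1
    conv_rhs => rw [← List.ofFn_get w, List.map_ofFn]
    rfl
  rw [Fintype.sum_sigma]
  simp only [kdOf, h1]
  rw [← List.sum_ofFn]
  congr 1
  conv_rhs => rw [← List.ofFn_get ws, List.map_ofFn]
  rfl

theorem card_r : (univ.filter (fun x : Occ (words W E) => kdOf _ x = .r)).card = E := by
  rw [card_filter]
  rw [sum_occ (words W E) (fun c => if c = .r then 1 else 0), words_eq, rest]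
  have : (List.map (fun w => (List.map (fun c => if c = Let.r then 1 else 0) w).sum)
      (List.map WD.letters W)).sum = 0 := by
    apply List.sum_eq_zero
    intro n hn
    simp only [List.mem_map] at hn
    obtain ⟨_, ⟨w, hw, rfl⟩, rfl⟩ := hn
    apply List.sum_eq_zero
    intro n hn
    simp only [List.mem_map, WD.letters] at hn
    obtain ⟨_, ⟨q, hq, rfl⟩, rfl⟩ := hn
    rcases Nat.mod_two_eq_zero_or_one q with h | h
    · rcases at_even (w := w) h with h | h | h <;> simp [h]
    · rcases at_odd (w := w) h with h | h | h <;> simp [h]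
  rw [List.map_append, List.sum_append, this]
  simp

end ModE

open ModE in
theorem wps_of_order (W : List WD) (E : ℕ) (hW : ∀ w ∈ W, w.Ok) (t : Occ (words W E) → ℕ)
    (ht : ∀ (j : Fin (words W E).length) (k k' : Fin ((words W E).get j).length), k < k' →
      t ⟨j, k⟩ < t ⟨j, k'⟩)
    (l : List (Occ (words W E))) (hn : l.Nodup) (hc : ∀ x, x ∈ l)
    (hs : l.Pairwise (fun x y => t x < t y)) (hr : run .N1 (l.map (kdOf _)) = some .F2) :
    ∃ τ σ, WPS W E τ σ := by
  classical
  set R : Occ (words W E) → ℕ := fun x => N (kdOf _) t .r x with hR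
  let τ : Fin W.length → ℕ → ℕ := fun j k =>
    if h : 2 * k < 2 * (W.get j).K + 1 then R (occ W E j (2 * k) h) else 0
  let σ : Fin W.length → ℕ → ℕ := fun j k =>
    if h : 2 * k + 1 < 2 * (W.get j).K + 1 then R (occ W E j (2 * k + 1) h) else 0
  have hτ : ∀ j k (h : 2 * k < 2 * (W.get j).K + 1), τ j k = R (occ W E j (2 * k) h) :=
    fun j k h => dif_pos h
  have hσ : ∀ j k (h : 2 * k + 1 < 2 * (W.get j).K + 1), σ j k = R (occ W E j (2 * k + 1) h) :=
    fun j k h => dif_pos h
  have hlt : ∀ (j : Fin W.length) (q q' : ℕ) (h : q < 2 * (W.get j).K + 1)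
      (h' : q' < 2 * (W.get j).K + 1), q < q' → t (occ W E j q h) < t (occ W E j q' h') :=
    fun j q q' h h' hqq => ht _ _ _ (by simpa using hqq)
  have hOk : ∀ j : Fin W.length, (W.get j).Ok := fun j => hW _ (List.get_mem _ _)
  have k1 : ∀ (j : Fin W.length) (k : ℕ) (h : 2 * k < 2 * (W.get j).K + 1),
      kdOf _ (occ W E j (2 * k) h) = .n1 ∨ kdOf _ (occ W E j (2 * k) h) = .a ∨
      kdOf _ (occ W E j (2 * k) h) = .z := by
    intro j k h
    rw [kd_occ]
    exact at_even (by omega)
  have k2 : ∀ (j : Fin W.length) (k : ℕ) (h : 2 * k + 1 < 2 * (W.get j).K + 1),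
      kdOf _ (occ W E j (2 * k + 1) h) = .n2 ∨ kdOf _ (occ W E j (2 * k + 1) h) = .up ∨
      kdOf _ (occ W E j (2 * k + 1) h) = .dn := by
    intro j k h
    rw [kd_occ]
    exact at_odd (by omega)
  -- the a-letters with a given tick
  have hA : ∀ m, ∑ j, ((W.get j).A.filter (fun k => τ j k = m)).card =
      (univ.filter (fun x : Occ (words W E) => kdOf _ x = .a ∧ R x = m)).card := by
    intro m
    rw [← card_sigma]
    refine card_bij (fun p hp => occ W E p.1 (2 * p.2) ?_) ?_ ?_ ?_
    · have h1 := (mem_filter.1 (mem_sigma.1 hp).2).1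
      have := (hOk p.1).hA _ h1
      omega
    · rintro ⟨j, k⟩ hp
      have h1 := (mem_filter.1 (mem_sigma.1 hp).2)
      simp only [mem_filter, mem_univ, true_and]
      refine ⟨?_, ?_⟩
      · rw [kd_occ, at_a (hOk j)]
        exact ⟨by omega, by simpa using h1.1⟩
      · rw [← hτ]
        exact h1.2
    · rintro ⟨j, k⟩ hp ⟨j', k'⟩ hp' he
      obtain ⟨h1, h2⟩ := occ_inj W E he
      simp only at h1 h2
      subst h1
      have : k = k' := by omega
      subst this
      rfl
    · intro x hx
      simp only [mem_filter, mem_univ, true_and] at hx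
      have hx1 : x.1.1 < W.length := by
        by_contra hcon
        exact (kd_mem W E x (by omega)).1 hx.1
      obtain ⟨j, q, hq, rfl⟩ := exists_occ W E x hx1
      have hq2 := hx.1
      rw [kd_occ, at_a (hOk j)] at hq2
      obtain ⟨k, rfl⟩ : ∃ k, q = 2 * k := ⟨q / 2, by omega⟩
      refine ⟨⟨j, k⟩, ?_, rfl⟩
      simp only [mem_sigma, mem_univ, true_and, mem_filter]
      refine ⟨by simpa using hq2.2, ?_⟩
      rw [hτ _ _ hq]
      exact hx.2
  have hZ : ∀ m, ∑ j, ((W.get j).Z.filter (fun k => τ j k = m)).card =
      (univ.filter (fun x : Occ (words W E) => kdOf _ x = .z ∧ R x = m)).card := by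
    intro m
    rw [← card_sigma]
    refine card_bij (fun p hp => occ W E p.1 (2 * p.2) ?_) ?_ ?_ ?_
    · have h1 := (mem_filter.1 (mem_sigma.1 hp).2).1
      have := (hOk p.1).hZ _ h1
      omega
    · rintro ⟨j, k⟩ hp
      have h1 := (mem_filter.1 (mem_sigma.1 hp).2)
      simp only [mem_filter, mem_univ, true_and]
      refine ⟨?_, ?_⟩
      · rw [kd_occ, at_z]
        exact ⟨by omega, by simpa using h1.1⟩
      · rw [← hτ]
        exact h1.2
    · rintro ⟨j, k⟩ hp ⟨j', k'⟩ hp' he
      obtain ⟨h1, h2⟩ := occ_inj W E he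
      simp only at h1 h2
      subst h1
      have : k = k' := by omega
      subst this
      rfl
    · intro x hx
      simp only [mem_filter, mem_univ, true_and] at hx
      have hx1 : x.1.1 < W.length := by
        by_contra hcon
        exact (kd_mem W E x (by omega)).2.1 hx.1
      obtain ⟨j, q, hq, rfl⟩ := exists_occ W E x hx1
      have hq2 := hx.1
      rw [kd_occ, at_z] at hq2
      obtain ⟨k, rfl⟩ : ∃ k, q = 2 * k := ⟨q / 2, by omega⟩
      refine ⟨⟨j, k⟩, ?_, rfl⟩
      simp only [mem_sigma, mem_univ, true_and, mem_filter]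
      refine ⟨by simpa using hq2.2, ?_⟩
      rw [hτ _ _ hq]
      exact hx.2
  refine ⟨τ, σ, ?_, ?_, ?_, ?_⟩
  · intro j k hk
    rw [hτ j k (by omega), hσ j k (by omega), hτ j (k + 1) (by omega)]
    refine ⟨?_, ?_⟩
    · exact N_mono _ _ _ (hlt j _ _ _ _ (by omega)).le
    · exact strict _ t hn hc hs hr (k2 j k _) (k1 j (k + 1) _) (hlt j _ _ _ _ (by omega))
  · intro j
    rw [hτ j _ (by omega)]
    refine (card_le_card ?_).trans (card_r W E).le
    intro y hy
    simp only [mem_filter, mem_univ, true_and] at hy ⊢
    exact hy.2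
  · intro m
    rw [hA, hZ]
    exact tick_bal _ t hn hc hs hr m
  · intro j u d hud m h1 h2 j' k hk hkm
    obtain ⟨hud1, hud2⟩ := (hOk j).hud u d hud
    rw [hσ j u (by omega)] at h1
    rw [hσ j d (by omega)] at h2
    have hkK : 2 * k < 2 * (W.get j').K + 1 := by
      rcases mem_union.1 hk with h | h
      · have := (hOk j').hA _ h
        omega
      · have := (hOk j').hZ _ h
        omega
    rw [hτ j' k hkK] at hkm
    set x := occ W E j' (2 * k) hkK with hx
    set xu := occ W E j (2 * u + 1) (by omega) with hxu
    set xd := occ W E j (2 * d + 1) (by omega) with hxd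
    have hkx : kdOf _ x = .a ∨ kdOf _ x = .z := by
      rw [hx, kd_occ]
      rcases mem_union.1 hk with h | h
      · left
        rw [at_a (hOk j')]
        exact ⟨by omega, by simpa using h⟩
      · right
        rw [at_z]
        exact ⟨by omega, by simpa using h⟩
    have hxu' : kdOf _ xu = .up := by
      rw [hxu, kd_occ, at_up]
      exact ⟨by omega, d, by rw [hud]; congr 2; omega⟩
    have hxd' : kdOf _ xd = .dn := by
      rw [hxd, kd_occ, at_dn (hOk j)]
      exact ⟨by omega, u, by rw [hud]; congr 2; omega⟩
    -- `xu` is before `x`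
    have b1 : t xu < t x := by
      by_contra hcon
      have : R x ≤ R xu := N_mono _ _ _ (not_lt.1 hcon)
      omega
    have b2 : ¬ t xd < t x := by
      intro hcon
      have : R xd < R x := strict _ t hn hc hs hr (by rw [hxd']; simp)
        (by rcases hkx with h | h <;> rw [h] <;> simp) hcon
      omega
    have hbal := az _ t hn hc hs hr hkx
    -- compare the sets of words whose up / dn is before `x`
    have inj1 : ∀ c : Let, (c = .up ∨ c = .dn) →
        (N (kdOf _) t c x = ((univ.filter (fun y => t y < t x ∧ kdOf (words W E) y = c)).image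
          (fun y => y.1)).card) := by
      intro c hcc
      rw [card_image_of_injOn]
      · rfl
      · intro y hy y' hy' hyy
        simp only [coe_filter, mem_univ, true_and, Set.mem_ofPred_eq] at hy hy'
        have hy1 : y.1.1 < W.length := by
          by_contra hcon
          have := kd_mem W E y (by omega)
          rcases hcc with h | h <;> rw [h] at hy <;> simp [hy.2] at this
        have hy1' : y'.1.1 < W.length := by
          by_contra hcon
          have := kd_mem W E y' (by omega)
          rcases hcc with h | h <;> rw [h] at hy' <;> simp [hy'.2] at this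
        obtain ⟨i, q, hq, rfl⟩ := exists_occ W E y hy1
        obtain ⟨i', q', hq', rfl⟩ := exists_occ W E y' hy1'
        have hii : i = i' := Fin.ext
          (congrArg (fun z : Fin (words W E).length => (z : ℕ)) hyy)
        subst hii
        have e1 := hy.2
        have e2 := hy'.2
        rw [kd_occ] at e1 e2
        have : q = q' := by
          rcases hcc with h | h
          · rw [h, at_up] at e1 e2
            obtain ⟨m1, d1, f1⟩ := e1
            obtain ⟨m2, d2, f2⟩ := e2
            rw [f1] at f2
            have := congrArg Prod.fst (Option.some.inj f2)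
            simp only at this
            omega
          · rw [h, at_dn (hOk i)] at e1 e2
            obtain ⟨m1, d1, f1⟩ := e1
            obtain ⟨m2, d2, f2⟩ := e2
            rw [f1] at f2
            have := congrArg Prod.snd (Option.some.inj f2)
            simp only at this
            omega
        subst this
        rfl
    have hlt2 : N (kdOf _) t .dn x < N (kdOf _) t .up x := by
      rw [inj1 .dn (Or.inr rfl), inj1 .up (Or.inl rfl)]
      refine card_lt_card ⟨?_, ?_⟩
      · intro i hi
        simp only [mem_image, mem_filter, mem_univ, true_and] at hi ⊢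
        obtain ⟨y, ⟨hy1, hy2⟩, rfl⟩ := hi
        have hy3 : y.1.1 < W.length := by
          by_contra hcon
          have := kd_mem W E y (by omega)
          simp [hy2] at this
        obtain ⟨i, q, hq, rfl⟩ := exists_occ W E y hy3
        rw [kd_occ, at_dn (hOk i)] at hy2
        obtain ⟨m1, u1, f1⟩ := hy2
        have g1 := (hOk i).hud u1 (q / 2) f1
        refine ⟨occ W E i (2 * u1 + 1) (by omega), ⟨?_, ?_⟩, rfl⟩
        · exact lt_trans (hlt i _ _ _ _ (by omega)) hy1
        · rw [kd_occ, at_up]
          exact ⟨by omega, q / 2, by rw [f1]; congr 2; omega⟩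
      · intro hsub
        have hm : xu.1 ∈ (univ.filter (fun y => t y < t x ∧ kdOf (words W E) y = .up)).image
            (fun y => y.1) := mem_image_of_mem _ (by simp [b1, hxu'])
        have hm2 := hsub hm
        simp only [mem_image, mem_filter, mem_univ, true_and] at hm2
        obtain ⟨y, ⟨hy1, hy2⟩, hy4⟩ := hm2
        have hy3 : y.1.1 < W.length := by
          rw [hy4]
          exact j.2
        obtain ⟨i, q, hq, rfl⟩ := exists_occ W E y hy3
        have hii : i = j := Fin.ext
          (congrArg (fun z : Fin (words W E).length => (z : ℕ)) hy4)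
        subst hii
        rw [kd_occ, at_dn (hOk i)] at hy2
        obtain ⟨m1, u1, f1⟩ := hy2
        rw [hud] at f1
        have := congrArg Prod.snd (Option.some.inj f1)
        simp only at this
        have hqd : q = 2 * d + 1 := by omega
        subst hqd
        exact b2 hy1
    omega

end Pool.Agent.helper66.JS
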